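import Pool.Agent.U642.BG.Fam
import Pool.Agent.U642.BG.Expo

set_option autoImplicit false

/-!
# Least primes of record size in the classes of powers of elements of small order

For a prime `q` and an integer `b` prime to `q` let `p(q, b)` be the least prime in the class
`b mod q`.  Let `f(q) = log q (log₂ q)² log₄ q / (log₃ q)²` (iterated natural logarithms); the
largest known lower bound for `p(q) = max_b p(q, b)` is `c φ(q) f(q)` (starting files).

Let `g_1, …, g_r` be residues modulo the large prime `q` of multiplicative orders at least `q ^ ε`,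
`x_j ≠ 0`, and let the exponents `n_j` run through intervals of length at least `q ^ ε`.  The theorem:
for at least `q ^ (-ε) ∏ N_j` of the exponent vectors the residues `x_j g_j ^ n_j` have representatives
`y_j` in prescribed intervals of length `q ^ (1 - δ)` in `[0, q / r]` such that all the `2 ^ r - 1` least
primes `p(q, ∑_{j ∈ S} y_j)`, `S ≠ ∅`, exceed `κ q f(q)`.

For `r = 1`: every coset `x H` of every subgroup `H` of order at least `q ^ ε` of the multiplicative
group modulo `q`, and every geometric progression `x g ^ n`, `a ≤ n < a + q ^ ε`, contains classes `b`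
with `p(q, b) > κ q f(q)`, with `b` in any prescribed interval of length `q ^ (1 - δ)`.

Method.  Shifting the summation over the exponents by sums of `k` variables turns the sums
`∑ e(t x g ^ n / q)` into multilinear sums over the sets `{g ^ m : m < q ^ (ε / 2)}`, for which the theorem
of Bourgain, Glibichuk and Konyagin is proved in `U642.BG.Ml2` (from the flattening theorem
`Y881.SP.flat` of the library).  So the representatives are well distributed modulo the integers up
to a small power of `q` (`U642.BG.Eqd`, Fourier series of intervals), and the covering sieve for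
families of integer vectors (helper837, helper542; after helper256 and helper378) is applied to
their multiples by an inverse of `q` modulo `K!`, `K` a small power of `q`.
-/

namespace Pool.Agent.Results.MP_458f0b_nt.GeometricProgressions

open Finset

/-- The record scale `f(x) = log x (log₂ x)² log₄ x / (log₃ x)²` (iterated natural logarithms). -/
noncomputable def f (x : ℝ) : ℝ :=
  Real.log x * (Real.log (Real.log x)) ^ 2 * Real.log (Real.log (Real.log (Real.log x))) /
    (Real.log (Real.log (Real.log x))) ^ 2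

/-- **Least primes of record size in the classes of powers of elements of small order.** -/
theorem result (r : ℕ) (ε : ℝ) (hε : 0 < ε) (hε1 : ε ≤ 1) :
    ∃ κ : ℝ, 0 < κ ∧ ∃ δ : ℝ, 0 < δ ∧ ∃ q₀ : ℕ, ∀ q : ℕ, q.Prime → q₀ ≤ q →
      ∀ (g x : Fin r → ZMod q), (∀ j, (q : ℝ) ^ ε ≤ orderOf (g j)) → (∀ j, x j ≠ 0) →
      ∀ (a N : Fin r → ℕ), (∀ j, (q : ℝ) ^ ε ≤ N j) →
      ∀ (M : Fin r → ℤ) (L : ℕ), (∀ j, 0 ≤ M j ∧ r * (M j + L) ≤ q) →
      (q : ℝ) ^ (1 - δ) ≤ L → L ≤ q →
      ∃ B ⊆ Fintype.piFinset (fun j => Ico (a j) (a j + N j)),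
        (q : ℝ) ^ (-ε) * ∏ j, (N j : ℝ) ≤ B.card ∧
        ∀ n ∈ B, ∃ y : Fin r → ℤ,
          (∀ j, M j < y j ∧ y j ≤ M j + L ∧ (y j : ZMod q) = x j * g j ^ n j) ∧
          ∀ S : Finset (Fin r), S.Nonempty → ∀ l : ℕ, l.Prime → (l : ℤ) ≡ ∑ j ∈ S, y j [ZMOD q] →
            κ * (q * f q) < l := by
  classical
  obtain ⟨δ₁, hδ₁, p₀, hexp⟩ := Pool.Agent.U642.BG.expo_prod ε hε r
  obtain ⟨κ, hκ, δ, hδ, P₀, h⟩ := Pool.Agent.U642.BG.ap_fam r (min δ₁ ε) (lt_min hδ₁ hε)
    ((min_le_right _ _).trans hε1)
  obtain ⟨n₀, hn₀⟩ := exists_nat_ge P₀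
  refine ⟨κ, hκ, δ, hδ, max p₀ n₀, ?_⟩
  intro q hq hqq g x hg hx a N hN M L hM hL1 hL2
  have : Fact q.Prime := ⟨hq⟩
  have hq1 : (1 : ℝ) ≤ q := by exact_mod_cast hq.one_lt.le
  have hq2 : P₀ ≤ q := hn₀.trans (by exact_mod_cast (le_max_right _ _).trans hqq)
  have hcard : ((Fintype.piFinset (fun j => Ico (a j) (a j + N j))).card : ℝ) =
      ∏ j, (N j : ℝ) := by
    rw [Fintype.card_piFinset]
    push_cast
    refine prod_congr rfl fun j _ => ?_
    rw [Nat.card_Ico]
    congr 1
    omega
  obtain ⟨B, hB, hBc, hB2⟩ := h q hq2 (Fin r → ℕ)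
    (Fintype.piFinset (fun j => Ico (a j) (a j + N j))) (fun n j => x j * g j ^ n j) (by
      intro t ht
      refine (hexp q ((le_max_left _ _).trans hqq) g x hg hx a N hN t ht).trans ?_
      apply mul_le_mul_of_nonneg_left _ (Nat.cast_nonneg _)
      exact Real.rpow_le_rpow_of_exponent_le hq1 (neg_le_neg (min_le_left _ _))) M L hM hL1 hL2
  refine ⟨B, hB, ?_, ?_⟩
  · refine le_trans ?_ hBc
    rw [hcard, mul_comm]
    apply mul_le_mul_of_nonneg_left _ (prod_nonneg fun j _ => Nat.cast_nonneg _)
    exact Real.rpow_le_rpow_of_exponent_le hq1 (neg_le_neg (min_le_right _ _))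
  · intro n hn
    obtain ⟨y, hy1, hy2⟩ := hB2 n hn
    refine ⟨y, hy1, fun S hS l hl hmod => ?_⟩
    have h7 := hy2 S hS l hl hmod.symm.dvd
    have e : κ * (q * f q) = κ * Pool.Agent.W147.PS.ff q * q := by
      have : f (q : ℝ) = Pool.Agent.W147.PS.ff q := rfl
      rw [this]
      ring
    rw [e]
    exact h7

end Pool.Agent.Results.MP_458f0b_nt.GeometricProgressions
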