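import Mathlib
import Pool.Agent.U289.NY.Res

/-!
# Many residues at once: bounded least primes for bounded multiples of almost all moduli, and only there

`p(d, b)` is the least prime congruent to `b` modulo `d`. Let `w ≥ 1`; we consider the residues `b` all of whose prime
factors divide `w` (`b` may be negative and need not be reduced), and the moduli `x m` for a variable `m` and fixed `x`.
Let `b_0, b_1, …` be any such residues, and let `c(b)` be the product of the primes dividing `w` and not `b`. Let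
`y_0, y_1, …` be any distinct positive integers prime to `w`, let `W_0, W_1, …` be any finite nonempty sets of indices
`e` and `η > 0`. There is a set `𝒮` of indices with `|𝒮 ∩ W_t| ≥ (5/18 - η) |W_t|` for infinitely many `t`, such that the
following holds for EVERY finite subset `I` of `𝒮`, `0 < ε < 1` and arbitrary integers `k_j`, `m_j ≥ 1`.

There are numbers `C_0, C_1, …` such that for ALL positive integers `r_{j,i}` prime to `w`, `i < k_j`, and ALL finitely
supported probability measures `μ_0, μ_1, …` on the natural numbers there are sets `E_e` of positive integers prime to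
`w`, one for each residue `b_e`, `e ∈ I`, and `J_0 < J_1 < …` with the following two properties.

(1) For infinitely many `t` the set of the `j`, for which at least `(1 - ε) k_j` of the `r_{j,i}` have at least `m_j`
multiples `f r_{j,i}`, `f ≤ C_j`, in EVERY set `E_e`, `e ∈ I`, has `μ_t`-measure at least `1 - ε`.

(2) The elements of the sets `E_e` can be combined freely: for all `k`, `c` and `i_1 < ⋯ < i_k` with `k, c ≤ i_1`,
for every length `l` and every `B` there are `C` and arbitrarily large `N`, the same for ALL choices of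
`e_1, …, e_k ∈ I` and `s_u ∈ E_{e_u}`, `s_u ≤ c`, and for all `J ⊆ {1, …, k}`, such that for some
`1 ≤ d ≤ (log N) ^ C` there are at least `N / (log N) ^ C` integers `n ≤ N` with: for each
`m = n, n + d, …, n + (l - 1) d`, with `x_u = c(b_{e_u}) y_{J_{i_u}} s_u`, among the numbers `x_u m + b_{e_u}` exactly
those with `u ∈ J` are prime, and NO number `x m + β` with `1 ≤ x ≤ B`, `|β| ≤ B`, `gcd(x, β) = 1`, all prime factors of
`β` dividing `w`, is prime, apart (possibly) from those for which `β` is one of the residues `b_e` and `c(b_e)` divides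
`x`.

So there are many `m` for which, in the moduli `d = x_u m`, prescribed residues `b_e` have a prime `d + b_e` (least primes
of the bounded size `p(d, b_e) ≤ d + b_e`), while every other residue `β` composed of the prime factors of `w` has no
prime `x m + β` (`x ≤ B`) at all, so no prime `h d + β`, `h x_u ≤ B`: its least prime is larger than any given multiple
of the modulus. The question is about the maximum of `p(d, b)` over ALL residues, which is conjectured to be about
`φ(d) log² d`; here small and large values are prescribed at the same time for many residues, and this is possible for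
bounded multiples of almost all moduli of arbitrary arrays, with sets of multipliers which can be combined freely.
(The numbers `C_j` depend on `I` but not on the `r_{j,i}` and the measures.)

New compared with the starting files and my hand-ins: `MP_d018b2_nt.FreeMultiples` (mine) is about the single residue `1`
(`w = 1`); bounded factors cannot lead from one residue to another. For a set of residues which is not large one cannot
exclude by these methods that some of them never have primes at the same time; the theorem finds one large set of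
residues which have primes together for bounded multiples of almost all moduli. The siblings
`MP_c183ae_nt.ManyStarts` (chains) and `MP_c77da8_nt.TypedPositions` (positions in chains) use the same engine for other
semigroups.

Proof. Labels are pairs (multiplier, residue); a set of labels is free if the iterated limit of the statement (2) along
an ultrafilter is true; the substitution `c m` for `m`, `c` prime to `w`, preserves free sets, the residues, and the set
of the other forms `x m + β`. By the coloured Maynard-Tao theorem (`Pool.Agent.Y827.HN.patR`, starting files) free sets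
contain, for any weights, labels of the proportion `5/18`; so for at least `η` of the weight the set of the residues which
occur has the proportion `5/18 - η`. If for each of the finitely many large sets `I` of residues the theorem with some
proportion `ρ < 1` were false for all `(C_j)`, bad configurations for all the `I` could be placed inside each other,
again and again, until every free set contains all the residues of some `I` with weight less than `η`
(`Pool.Agent.U289.NY.nest`). Infinitely many windows of residues and infinitely many measures: Pták's lemma on convex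
means (`Pool.Agent.Helper639.Tk.ptak`, starting files).
-/

set_option autoImplicit false

namespace Pool.Agent.Results.MP_458f0b_nt.ManyResidues

open Filter Finset

/-- the product of the primes dividing `w` and not `b` -/
def co (w : ℕ) (b : ℤ) : ℕ := ∏ p ∈ w.primeFactors.filter (fun p : ℕ => ¬ (p : ℤ) ∣ b), p

/-- among the numbers `x m + β`, `(x, β) = g u`, exactly those with `u ∈ J` are prime, and no `x m + β` with
`1 ≤ x ≤ B`, `|β| ≤ B`, `x` and `β` coprime and all prime factors of `β` dividing `w` is prime, unless `β = b e` and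
`co w (b e)` divides `x` for some `e` -/
def Pattern (w : ℕ) (b : ℕ → ℤ) (B : ℕ) {k : ℕ} (g : Fin k → ℕ × ℤ) (J : Finset (Fin k)) (m : ℕ) : Prop :=
  (∀ u : Fin k, (((g u).1 : ℤ) * m + (g u).2).toNat.Prime ↔ u ∈ J) ∧
    ∀ (x : ℕ) (β : ℤ), 1 ≤ x → x ≤ B → |β| ≤ B → IsCoprime (x : ℤ) β →
      (∀ p : ℕ, p.Prime → (p : ℤ) ∣ β → p ∣ w) → (∀ e : ℕ, ¬ (β = b e ∧ co w (b e) ∣ x)) →
      ¬ ((x : ℤ) * m + β).toNat.Prime

open Classical in
/-- the number of the `1 ≤ n ≤ N` such that all of `n, n + d, …, n + (l - 1) d` have the pattern -/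
noncomputable def count (w : ℕ) (b : ℕ → ℤ) (B : ℕ) {k : ℕ} (g : Fin k → ℕ × ℤ) (J : Finset (Fin k))
    (l d N : ℕ) : ℕ :=
  ((Icc 1 N).filter (fun n : ℕ => ∀ i < l, Pattern w b B g J (n + i * d))).card

/-- all patterns occur, at arbitrarily large common scales `N`, for all the vectors in `𝓖` of pairs
(multiplier, residue) -/
def AllGood (w : ℕ) (b : ℕ → ℤ) {k : ℕ} (𝓖 : Set (Fin k → ℕ × ℤ)) : Prop :=
  ∀ l B : ℕ, ∃ C : ℕ, ∃ᶠ N : ℕ in atTop, ∀ g ∈ 𝓖, ∀ J : Finset (Fin k),
    ∃ d : ℕ, 1 ≤ d ∧ (d : ℝ) ≤ (Real.log N) ^ C ∧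
      (N : ℝ) / (Real.log N) ^ C ≤ (count w b B g J l d N : ℝ)

/-- the property `Q` holds for at least `(1 - ε) k` of the numbers `i < k` -/
def Most (ε : ℝ) (k : ℕ) (Q : ℕ → Prop) : Prop := ∃ R ⊆ range k, (1 - ε) * k ≤ (R.card : ℝ) ∧ ∀ i ∈ R, Q i

open Classical in
/-- **Many residues at once.** -/
theorem result (w : ℕ) (hw : 1 ≤ w) (b : ℕ → ℤ) (hb : ∀ e (p : ℕ), p.Prime → (p : ℤ) ∣ b e → p ∣ w)
    (y : ℕ → ℕ) (hy1 : ∀ j, 1 ≤ y j) (hyw : ∀ j, Nat.Coprime (y j) w) (hy : Function.Injective y)
    (W : ℕ → Finset ℕ) (hW : ∀ t, (W t).Nonempty) (η : ℝ) (hη : 0 < η) :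
    ∃ 𝒮 : Set ℕ, (∃ᶠ t in atTop, (5 / 18 - η) * ((W t).card : ℝ) ≤ ((𝒮 ∩ (W t : Set ℕ)).ncard : ℝ)) ∧
      ∀ I : Finset ℕ, (I : Set ℕ) ⊆ 𝒮 → ∀ (ε : ℝ), 0 < ε → ε < 1 → ∀ (k m : ℕ → ℕ), (∀ j, 1 ≤ k j) →
      (∀ j, 1 ≤ m j) →
      ∃ C : ℕ → ℕ, ∀ (r : ℕ → ℕ → ℕ) (_ : ∀ j i, 1 ≤ r j i ∧ Nat.Coprime (r j i) w) (μ : ℕ → ℕ → ℝ) (T : ℕ → ℕ),
        (∀ t j, 0 ≤ μ t j) → (∀ t, ∑ j ∈ range (T t), μ t j = 1) →
        ∃ (E : ℕ → Set ℕ) (J : ℕ → ℕ), (∀ e, ∀ s ∈ E e, 1 ≤ s ∧ Nat.Coprime s w) ∧ StrictMono J ∧
          (∃ᶠ t in atTop, 1 - ε ≤ ∑ j ∈ (range (T t)).filter (fun j => Most ε (k j) (fun i =>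
            ∀ e ∈ I, m j ≤ {f : ℕ | 1 ≤ f ∧ f ≤ C j ∧ r j i * f ∈ E e}.ncard)), μ t j) ∧
          ∀ (n c : ℕ) (i : Fin n → ℕ), StrictMono i → (∀ u, n ≤ i u ∧ c ≤ i u) →
            AllGood w b {g : Fin n → ℕ × ℤ | ∃ (e s : Fin n → ℕ),
              (∀ u, e u ∈ I ∧ s u ∈ E (e u) ∧ s u ≤ c) ∧
              ∀ u, g u = (co w (b (e u)) * y (J (i u)) * s u, b (e u))} := by
  obtain ⟨𝒮, h𝒮, hmain⟩ := Pool.Agent.U289.NY.res w hw b hb y hy1 hyw hy W hW η hη
    (fun n => (range (n + 1)).subtype (fun x => 1 ≤ x ∧ Nat.Coprime x w))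
  refine ⟨𝒮, h𝒮, fun I hI ε hε hε1 k m hk hm => ?_⟩
  obtain ⟨C0, hC0⟩ := hmain I (fun e he => hI he) ε hε hε1 k m hk hm
  refine ⟨fun j => (C0 j).sup (fun x => x.1), fun r hr μ T hμ hμ1 => ?_⟩
  obtain ⟨E, J, hJ, h1, h2⟩ := hC0 (fun j i => ⟨r j i, hr j i⟩) μ T hμ hμ1
  refine ⟨fun e => Subtype.val '' E e, J, ?_, hJ, h1.mono fun t ht => ht.trans ?_, fun n c i hi hnc l B' => ?_⟩
  · rintro e _ ⟨x, -, rfl⟩
    exact x.2
  · rw [← Pool.Agent.U289.NX.sum_ind (T t) (μ t) (fun j => Most ε (k j) (fun i =>
      ∀ e ∈ I, m j ≤ {f : ℕ | 1 ≤ f ∧ f ≤ (C0 j).sup (fun x => x.1) ∧ r j i * f ∈ Subtype.val '' E e}.ncard))]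
    refine sum_le_sum fun j _ => mul_le_mul_of_nonneg_left (Pool.Agent.U289.NX.ind_mono ?_) (hμ t j)
    rintro ⟨R, hR, hRk, hRi⟩
    refine ⟨R, hR, hRk, fun i hi e he => ?_⟩
    obtain ⟨E', hE', hEm, hES⟩ := hRi i hi e he
    rw [← hEm]
    have h3 : ((E'.image (fun c => c.1) : Finset ℕ) : Set ℕ) ⊆
        {f : ℕ | 1 ≤ f ∧ f ≤ (C0 j).sup (fun x => x.1) ∧ r j i * f ∈ Subtype.val '' E e} := by
      intro z hz
      obtain ⟨c, hc, rfl⟩ := mem_image.1 (mem_coe.1 hz)
      exact ⟨c.2.1, Finset.le_sup (f := fun x : Pool.Agent.U289.NY.Cop w => x.1) (hE' hc), _, hES c hc, rfl⟩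
    have h4 := Set.ncard_le_ncard h3 ((Set.finite_le_nat ((C0 j).sup (fun x => x.1))).subset
      (fun f hf => hf.2.1))
    rw [Set.ncard_coe_finset, card_image_of_injective _ Subtype.val_injective] at h4
    exact h4
  · obtain ⟨C', hC'⟩ := h2 ((range (c + 1)).subtype (fun x => 1 ≤ x ∧ Nat.Coprime x w)) n i hi
      (fun u => ⟨(hnc u).1, fun x hx => by
        rw [mem_subtype, mem_range] at hx ⊢
        have := (hnc u).2
        omega⟩) l
        (((Icc 1 B') ×ˢ (Icc (-(B' : ℤ)) B')).image (fun z : ℕ × ℤ => ((z.1 : ℤ), z.2)) |>.filter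
          (fun g => g ∈ Pool.Agent.U289.NY.OthR w b))
        (fun g hg => (mem_filter.1 hg).2)
    refine ⟨C', hC'.mono fun N hN g hg J' => ?_⟩
    obtain ⟨e, s, hes, hg⟩ := hg
    choose x hx using fun u => (hes u).2.1
    obtain ⟨d, hd1, hd2, hd3⟩ := hN _ ⟨e, x, fun u => ⟨(hes u).1, by
      rw [mem_subtype, mem_range, (hx u).2]
      have := (hes u).2.2
      omega, (hx u).1⟩, fun u => rfl⟩ J'
    refine ⟨d, hd1, hd2, hd3.trans ?_⟩
    rw [Nat.cast_le]
    unfold Pool.Agent.U289.NX.startsE count
    apply card_le_card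
    intro n' hn'
    rw [mem_filter] at hn' ⊢
    refine ⟨hn'.1, fun i' hi' => ?_⟩
    obtain ⟨h3, h4⟩ := hn'.2 i' hi'
    refine ⟨fun u => ?_, fun x' β hx1 hxB hβB hcop hβ hne => ?_⟩
    · have h5 := h3 u
      simp only [Pool.Agent.U289.NX.comp, mul_zero, zero_add] at h5
      rw [hg u]
      simp only
      have e1 : ((co w (b (e u)) * y (J (i u)) * s u : ℕ) : ℤ) * ((n' + i' * d : ℕ) : ℤ) + b (e u) =
          ((Pool.Agent.U289.NY.co w (b (e u)) * y (J (i u)) : ℕ) : ℤ) * ((x u).1 : ℤ) *
            ((n' + i' * d : ℕ) : ℤ) + b (e u) := by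
        rw [← (hx u).2]
        have : co w (b (e u)) = Pool.Agent.U289.NY.co w (b (e u)) := rfl
        rw [this]
        push_cast
        ring
      rw [e1]
      exact h5
    · exact h4 ((x' : ℤ), β) (mem_filter.2 ⟨mem_image.2 ⟨(x', β), mk_mem_product (mem_Icc.2 ⟨hx1, hxB⟩)
        (mem_Icc.2 ⟨(abs_le.1 hβB).1, (abs_le.1 hβB).2⟩), rfl⟩,
        x', β, hx1, hcop, hβ, hne, rfl⟩)

end Pool.Agent.Results.MP_458f0b_nt.ManyResidues
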