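import Pool.Agent.U642.LP.Main

set_option autoImplicit false

/-!
# Least primes of record size in the classes of the points of systems of quadratic equations

For a prime `d` and an integer `b` prime to `d` let `p(d, b)` be the least prime in the class
`b mod d`.  Let `f(d) = log d (log₂ d)² log₄ d / (log₃ d)²` (iterated natural logarithms); the
largest known lower bound for `p(d) = max_b p(d, b)` is `c φ(d) f(d)` (starting files).

Let `d` be a large prime and let

  `xᵀ Q_i x + b_i · x = a_i`, `1 ≤ i ≤ m`,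

be a system of `m` quadratic equations in `r` variables over the field with `d` elements such that
every nontrivial combination `∑ t_i (Q_i + Q_iᵀ)` has rank at least `ρ`; `b`, `a` are arbitrary.
The theorem: in every box `∏ (M_j, M_j + L_j] ⊆ [0, d / r] ^ r`, `L_j ≥ d ^ δ`, in which

  `∏_{j ∈ J} L_j ≥ d ^ (|J| / 2 + m + δ)` for all sets `J` of at least `ρ` variables,

there are at least `d ^ (-δ)` times the expected number `∏ L_j / d ^ m` of solutions `x` such that
not only the least primes `p(d, x_j)` but all the `2 ^ r - 1` least primes `p(d, ∑_{j ∈ S} x_j)`, `S ≠ ∅`,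
exceed `κ d f(d)`.  The condition on the box holds if all `L_j ≥ d ^ (1 / 2 + (m + δ) / ρ)`.

Method.  Let `u` be an inverse of `d` modulo `K!`, `K = d ^ δ'`.  The solutions in residue classes
to small moduli are counted by completing the exponential sums in the variables of a nonsingular
principal minor of size `≥ ρ` (Gauss sums), so the vectors `u x` are well distributed modulo the
integers up to a small power of `d`, and the covering sieve for families of integer vectors
(helper837, helper542; after helper256 and helper378) finds many of them for which all the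
integers `u ∑_{j ∈ S} x_j + i`, `|i| ≤ κ f(d)`, have a prime factor `l ≤ K`.  Then `l` divides
`∑_{j ∈ S} x_j + i d`.
-/

namespace Pool.Agent.Results.MP_458f0b_nt.QuadraticSystems

open Finset Filter Matrix

/-- The record scale `f(x) = log x (log₂ x)² log₄ x / (log₃ x)²` (iterated natural logarithms). -/
noncomputable def f (x : ℝ) : ℝ :=
  Real.log x * (Real.log (Real.log x)) ^ 2 * Real.log (Real.log (Real.log (Real.log x))) /
    (Real.log (Real.log (Real.log x))) ^ 2

/-- The integer solutions of `xᵀ Q_i x + b_i · x = a_i` (in `ZMod d`, all `i`) in the box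
`∏ (M j, M j + L j]` such that for every nonempty set `S` of indices all the primes
`l ≡ ∑ j ∈ S, x j` modulo `d` are larger than `κ d f(d)`. -/
def Sols {d m r : ℕ} (κ : ℝ) (Q : Fin m → Matrix (Fin r) (Fin r) (ZMod d))
    (b : Fin m → Fin r → ZMod d) (a : Fin m → ZMod d) (M : Fin r → ℤ) (L : Fin r → ℕ) :
    Set (Fin r → ℤ) :=
  {x | (∀ j, M j < x j ∧ x j ≤ M j + L j) ∧
    (∀ i, (∑ j, ∑ k, Q i j k * (x j : ZMod d) * (x k : ZMod d)) + ∑ j, b i j * (x j : ZMod d) =
      a i) ∧
    ∀ S : Finset (Fin r), S.Nonempty → ∀ l : ℕ, l.Prime → (l : ℤ) ≡ ∑ j ∈ S, x j [ZMOD d] →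
      κ * (d * f d) < l}

/-- **Least primes of record size in the residue classes of the points of systems of quadratic
equations modulo the prime `d` in short boxes.** -/
theorem result (r m : ℕ) (δ : ℝ) (hδ : 0 < δ) (hδ1 : δ ≤ 1) :
    ∃ κ : ℝ, 0 < κ ∧ ∃ d₀ : ℕ, ∀ d : ℕ, d.Prime → d₀ ≤ d →
      ∀ (ρ : ℕ) (Q : Fin m → Matrix (Fin r) (Fin r) (ZMod d)) (b : Fin m → Fin r → ZMod d)
        (a : Fin m → ZMod d) (M : Fin r → ℤ) (L : Fin r → ℕ),
      (∀ t : Fin m → ZMod d, t ≠ 0 → ρ ≤ (∑ i, t i • (Q i + (Q i)ᵀ)).rank) →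
      (∀ j, 0 ≤ M j ∧ r * (M j + L j) ≤ d ∧ (d : ℝ) ^ δ ≤ L j) →
      (∀ J : Finset (Fin r), ρ ≤ J.card →
        (d : ℝ) ^ ((J.card : ℝ) / 2 + m + δ) ≤ ∏ j ∈ J, (L j : ℝ)) →
      (∏ j, (L j : ℝ)) / (d : ℝ) ^ ((m : ℝ) + δ) ≤ ((Sols κ Q b a M L).ncard : ℝ) := by
  classical
  obtain ⟨κ, hκ, h⟩ := Pool.Agent.U642.LP.quad_ap r m δ hδ hδ1
  obtain ⟨x₀, hx₀⟩ := eventually_atTop.mp h
  obtain ⟨d₀, hd₀⟩ := exists_nat_ge x₀
  refine ⟨κ, hκ, d₀, ?_⟩
  intro d hd hdd ρ Q b a M L hr hL hJ
  have : Fact d.Prime := ⟨hd⟩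
  refine (hx₀ d (hd₀.trans (by exact_mod_cast hdd)) d rfl ρ Q b a M L hr hL hJ).trans ?_
  have hfin : (Sols κ Q b a M L).Finite := by
    apply Set.Finite.subset (Fintype.piFinset fun j => Ioc (M j) (M j + L j)).finite_toSet
    intro x hx
    rw [mem_coe, Fintype.mem_piFinset]
    intro j
    rw [mem_Ioc]
    exact hx.1 j
  rw [Nat.cast_le, ← Set.ncard_coe_finset]
  apply Set.ncard_le_ncard _ hfin
  intro x hx
  rw [mem_coe, mem_filter] at hx
  obtain ⟨h3, h4⟩ := hx
  unfold Pool.Agent.U642.QS.pts at h3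
  rw [mem_filter, Fintype.mem_piFinset] at h3
  refine ⟨fun j => mem_Ioc.mp (h3.1 j), ?_, ?_⟩
  · intro i
    have h5 := congrFun h3.2 i
    rw [← h5]
    simp only [dotProduct, Matrix.mulVec, mul_sum]
    congr 1
    refine sum_congr rfl fun j _ => sum_congr rfl fun k _ => ?_
    ring
  intro S hS l hl hmod
  have h7 := h4 S hS l hl hmod.symm.dvd
  have e : κ * (d * f d) = κ * Pool.Agent.W147.PS.ff d * d := by
    have : f (d : ℝ) = Pool.Agent.W147.PS.ff d := rfl
    rw [this]
    ring
  rw [e]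
  exact h7

end Pool.Agent.Results.MP_458f0b_nt.QuadraticSystems
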