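import Mathlib
import Pool.Agent.U839.Wg.Fin

set_option autoImplicit false

/-!
# Wagstaff's conjecture in random models of the primes

Wagstaff's conjecture `p(d) ~ φ(d) (log d)²` for the largest least prime `p(d)` in the reduced classes modulo `d` was
proposed on heuristic grounds. We decide it in the random models of the primes: in Cramér's model every `n` is chosen
with probability `1 / log n`; in the model with the sieve `T` only the `n` without prime factors `p ≤ T(n)` are chosen,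
with probability `∏_{p ≤ T(n)} (1 - 1/p)⁻¹ / log n`. It is false in all of them. For prime moduli `q` and the ratio
`r(q) = p(q) / (φ(q) (log q)²)` we show, almost surely:

(A) for every nondecreasing `T` with `T(n) = n^{o(1)}` (this includes Cramér's model): `liminf r(q) ≥ 1` and
`limsup r(q) ≥ 2`; the number of pairs `(q, a)`, `q ≤ D`, for which the least chosen number in the class `a` modulo `q` is
larger than `c φ(q) (log q)²` is at least `D^{2 - c - ε}` for all large `D` (`0 < c < 2`).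

(B) If `T(n) = (log n)^{o(1)}`, then `liminf r(q) = 1`, `limsup r(q) = 2`, the number of those pairs is
`D^{2 - c + o(1)}` for every `0 < c < 2`, and `r(q) ≤ c` for all but `D^{2 - c + ε}` of the primes `q ≤ D` (`1 < c ≤ 2`).

(C) If `T(n) ≥ (log n)^θ` for some `θ > 0`, then `liminf r(q) ≥ 1 + δ` and `limsup r(q) ≥ 2 + δ` with
`δ = δ(θ) > 0`: Maier's phenomenon makes `r(q)` larger than `1 + δ` for all large primes `q`.

Proof. A class `a` modulo `q` with expected number `λ log q` of chosen elements up to `x` contains none of them with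
probability about `q^{-λ}`. (A) for most `a` the expected number is the average one; classes modulo the same `q`
are independent, which gives the first statement; for the second one the variance of the number of empty pairs is
bounded through the number of pairs of progressions which meet (after a pigeonhole argument which makes the
probabilities comparable), and Borel-Cantelli is applied to `D = 2^j`. (B) the fundamental lemma holds in every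
class. (C) the primes `≤ (log q)^θ` contain a set `P` for which the first `c (log q)²` integers contain fewer integers
without prime factors in `P` than expected; the classes `a = M b`, `M = ∏_{p ∈ P} p`, inherit this on average.
-/

open MeasureTheory ProbabilityTheory Filter Topology

namespace Pool.Agent.Results.MP_458f0b_nt.WagstaffInRandomModels

open Classical in
/-- `∏_{p ≤ T(n)} (1 - 1/p)⁻¹` if `n` has no prime factor `p ≤ T(n)`, and `0` otherwise. -/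
noncomputable def weight (T : ℕ → ℕ) (n : ℕ) : ℝ :=
  if ∀ p, p.Prime → p ≤ T n → ¬ p ∣ n then
    ∏ p ∈ (Finset.Icc 1 (T n)).filter Nat.Prime, (1 - 1 / (p : ℝ))⁻¹ else 0

/-- The random model: `E n` is the event that `n` is chosen; these events are independent and have
probability `weight T n / log n` (if this is at most `1`, which is the case for all large `n` here). -/
structure Model {Ω : Type*} [MeasurableSpace Ω] (μ : Measure Ω) (T : ℕ → ℕ) (E : ℕ → Set Ω) : Prop where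
  meas : ∀ n, MeasurableSet (E n)
  indep : iIndepSet E μ
  law : ∀ n : ℕ, μ.real (E n) = min 1 (weight T n / Real.log n)

/-- `T` is nondecreasing and eventually smaller than every positive power of `n`. -/
def Sieve (T : ℕ → ℕ) : Prop :=
  Monotone T ∧ ∀ ε : ℝ, 0 < ε → ∀ᶠ n : ℕ in atTop, (T n : ℝ) ≤ (n : ℝ) ^ ε

/-- `T` is nondecreasing and eventually smaller than every positive power of `log n`. -/
def SmallSieve (T : ℕ → ℕ) : Prop :=
  Monotone T ∧ ∀ θ : ℝ, 0 < θ → ∀ᶠ n : ℕ in atTop, (T n : ℝ) ≤ (Real.log n) ^ θ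

/-- The least element of `Q` in the class of `a` modulo `d` exceeds `x` (or there is none). -/
def Late (Q : Set ℕ) (d a : ℕ) (x : ℝ) : Prop := ∀ m ∈ Q, m ≡ a [MOD d] → x < m

/-- `p(d) > x`, where `p(d)` is the largest of the least elements of `Q` in the reduced classes
modulo `d`. -/
def Exceeds (Q : Set ℕ) (d : ℕ) (x : ℝ) : Prop :=
  ∃ a : ℕ, 1 ≤ a ∧ a < d ∧ a.Coprime d ∧ Late Q d a x

/-- `c φ(d) (log d)²` -/
noncomputable def w (c : ℝ) (d : ℕ) : ℝ := c * (d.totient : ℝ) * (Real.log d) ^ 2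

/-- The number of pairs `(q, a)`, `q ≤ D` prime, `1 ≤ a < q`, for which the least element of `Q` in
the class of `a` modulo `q` exceeds `c φ(q) (log q)²`. -/
noncomputable def N (Q : Set ℕ) (c : ℝ) (D : ℕ) : ℕ :=
  {z : ℕ × ℕ | z.1 ≤ D ∧ z.1.Prime ∧ 1 ≤ z.2 ∧ z.2 < z.1 ∧ Late Q z.1 z.2 (w c z.1)}.ncard

theorem toSieved {Ω : Type*} [MeasurableSpace Ω] {μ : Measure Ω} {T : ℕ → ℕ} {E : ℕ → Set Ω}
    (h : Model μ T E) : Pool.Agent.U839.Sv.Sieved μ E T :=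
  ⟨h.meas, h.indep, h.law⟩

theorem exceeds_mono {Q : Set ℕ} {d : ℕ} {x y : ℝ} (h : Exceeds Q d x) (hy : y ≤ x) : Exceeds Q d y := by
  obtain ⟨a, h1, h2, h3, h4⟩ := h
  exact ⟨a, h1, h2, h3, fun m hm hma => lt_of_le_of_lt hy (h4 m hm hma)⟩

theorem w_mono {c c' : ℝ} (h : c ≤ c') (d : ℕ) : w c d ≤ w c' d := by
  unfold w
  have h1 : (0 : ℝ) ≤ d.totient := Nat.cast_nonneg _
  have h2 := mul_le_mul_of_nonneg_right h h1
  exact mul_le_mul_of_nonneg_right h2 (sq_nonneg _)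

theorem ex_of {Q : Set ℕ} {q : ℕ} {x : ℝ} (hq : q.Prime)
    (h : ∃ a, 1 ≤ a ∧ a < q ∧ Pool.Agent.U839.Wg.Late Q q a x) : Exceeds Q q x := by
  obtain ⟨a, h1, h2, h3⟩ := h
  refine ⟨a, h1, h2, ?_, h3⟩
  apply Nat.Coprime.symm
  rw [Nat.Prime.coprime_iff_not_dvd hq]
  intro h4
  have := Nat.le_of_dvd (by omega) h4
  omega

theorem A1 {T : ℕ → ℕ} (hT : Sieve T) {Ω : Type*} [MeasurableSpace Ω] {μ : Measure Ω}
    [IsProbabilityMeasure μ] {E : ℕ → Set Ω} (hE : Model μ T E) (c : ℝ) (hc : c < 1) :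
    ∀ᵐ ω ∂μ, ∀ᶠ q : ℕ in atTop, q.Prime → Exceeds {n | ω ∈ E n} q (w c q) := by
  obtain ⟨c', h0, h1, h2⟩ : ∃ c' : ℝ, 0 < c' ∧ c ≤ c' ∧ c' < 1 :=
    ⟨max c (1 / 2), lt_max_of_lt_right (by norm_num), le_max_left _ _, max_lt hc (by norm_num)⟩
  obtain ⟨δ, hδ, hδ1, hδ2⟩ : ∃ δ : ℝ, 0 < δ ∧ δ ≤ 1 ∧ (1 + δ) * c' < 1 := by
    refine ⟨(1 - c') / 2, by linarith, by linarith, by nlinarith⟩
  filter_upwards [Pool.Agent.U839.Wg.all_low (toSieved hE) hT.2 c' (1 + δ) h0 (by linarith) hδ2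
    (fun η hη hη2 => Pool.Agent.U839.Wg.aavg T hT.1 hT.2 c' η δ h0 hη hη2 hδ hδ1)] with ω hω
  filter_upwards [hω] with q hq hqp
  exact exceeds_mono (ex_of hqp (hq hqp)) (w_mono h1 q)

theorem A2 {T : ℕ → ℕ} (hT : Sieve T) {Ω : Type*} [MeasurableSpace Ω] {μ : Measure Ω}
    [IsProbabilityMeasure μ] {E : ℕ → Set Ω} (hE : Model μ T E) (c : ℝ) (hc : c < 2) :
    ∀ᵐ ω ∂μ, ∃ᶠ q : ℕ in atTop, q.Prime ∧ Exceeds {n | ω ∈ E n} q (w c q) := by
  obtain ⟨c', h0, h1, h2⟩ : ∃ c' : ℝ, 0 < c' ∧ c ≤ c' ∧ c' < 2 :=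
    ⟨max c 1, lt_max_of_lt_right (by norm_num), le_max_left _ _, max_lt hc (by norm_num)⟩
  obtain ⟨c'', h3, h4⟩ : ∃ c'' : ℝ, c' < c'' ∧ c'' < 2 := exists_between h2
  obtain ⟨δ, hδ, hδ1, hδ2⟩ : ∃ δ : ℝ, 0 < δ ∧ δ ≤ 1 ∧ (1 + δ) * c'' < 2 := by
    refine ⟨(2 - c'') / 3, by linarith, by linarith, by nlinarith⟩
  filter_upwards [Pool.Agent.U839.Wg.inf_low (toSieved hE) hT.2 c'' c' (1 + δ) h0 h3 (by linarith) hδ2
    (fun η hη hη2 => Pool.Agent.U839.Wg.aavg T hT.1 hT.2 c'' η δ (by linarith) hη hη2 hδ hδ1)] with ω hω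
  refine hω.mono ?_
  rintro q ⟨hqp, hq⟩
  exact ⟨hqp, exceeds_mono (ex_of hqp hq) (w_mono h1 q)⟩

theorem A3 {T : ℕ → ℕ} (hT : Sieve T) {Ω : Type*} [MeasurableSpace Ω] {μ : Measure Ω}
    [IsProbabilityMeasure μ] {E : ℕ → Set Ω} (hE : Model μ T E) (c ε : ℝ) (hc0 : 0 < c) (hc : c < 2)
    (hε : 0 < ε) :
    ∀ᵐ ω ∂μ, ∀ᶠ D : ℕ in atTop, (D : ℝ) ^ (2 - c - ε) ≤ N {n | ω ∈ E n} c D := by
  obtain ⟨δ, hδ, hδ1, hδ2, hδ3⟩ : ∃ δ : ℝ, 0 < δ ∧ δ ≤ 1 ∧ (1 + δ) * c < 2 ∧ δ * c ≤ ε / 2 := by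
    refine ⟨min ((2 - c) / 3) (ε / 4), lt_min (by linarith) (by linarith),
      (min_le_left _ _).trans (by linarith), ?_, ?_⟩
    · have h1 := min_le_left ((2 - c) / 3) (ε / 4)
      have h2 : min ((2 - c) / 3) (ε / 4) * c ≤ (2 - c) / 3 * c := by gcongr
      nlinarith
    · have h1 := min_le_right ((2 - c) / 3) (ε / 4)
      have h2 : min ((2 - c) / 3) (ε / 4) * c ≤ ε / 4 * c := by gcongr
      nlinarith
  filter_upwards [Pool.Agent.U839.Wg.pairs_low (toSieved hE) hT.2 c (1 + δ) (ε / 2) hc0 (by linarith) hδ2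
    (by linarith) (fun η hη hη2 => Pool.Agent.U839.Wg.aavg T hT.1 hT.2 c η δ hc0 hη hη2 hδ hδ1)] with ω hω
  filter_upwards [hω, eventually_ge_atTop 1] with D hD hD1
  refine le_trans ?_ hD
  apply Real.rpow_le_rpow_of_exponent_le (by exact_mod_cast hD1)
  linarith

theorem small_sieve {T : ℕ → ℕ} (hT : SmallSieve T) : Sieve T :=
  ⟨hT.1, Pool.Agent.U839.Wg.sub_of T hT.2⟩

theorem B1 {T : ℕ → ℕ} (hT : SmallSieve T) {Ω : Type*} [MeasurableSpace Ω] {μ : Measure Ω}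
    [IsProbabilityMeasure μ] {E : ℕ → Set Ω} (hE : Model μ T E) (c : ℝ) (hc : 2 < c) :
    ∀ᵐ ω ∂μ, ∀ᶠ q : ℕ in atTop, q.Prime → ¬ Exceeds {n | ω ∈ E n} q (w c q) := by
  filter_upwards [Pool.Agent.U839.Wg.all_up hT.1 hT.2 (toSieved hE) c hc] with ω hω
  filter_upwards [hω] with q hq hqp
  rintro ⟨a, h1, h2, h3, h4⟩
  exact hq hqp a h1 h2 h4

theorem B2 {T : ℕ → ℕ} (hT : SmallSieve T) {Ω : Type*} [MeasurableSpace Ω] {μ : Measure Ω}
    [IsProbabilityMeasure μ] {E : ℕ → Set Ω} (hE : Model μ T E) (c : ℝ) (hc0 : 0 < c) (hc : c < 2) :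
    ∀ᵐ ω ∂μ, Tendsto (fun D : ℕ => Real.log (N {n | ω ∈ E n} c D) / Real.log D) atTop (𝓝 (2 - c)) := by
  have h1 : ∀ᵐ ω ∂μ, ∀ k : ℕ, ∀ᶠ D : ℕ in atTop,
      (D : ℝ) ^ (2 - c - 1 / ((k : ℝ) + 1)) ≤ N {n | ω ∈ E n} c D := by
    rw [ae_all_iff]
    intro k
    exact A3 (small_sieve hT) hE c (1 / ((k : ℝ) + 1)) hc0 hc (by positivity)
  have h2 : ∀ᵐ ω ∂μ, ∀ k : ℕ, ∀ᶠ D : ℕ in atTop,
      (N {n | ω ∈ E n} c D : ℝ) ≤ (D : ℝ) ^ (2 - c + 1 / ((k : ℝ) + 1)) := by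
    rw [ae_all_iff]
    intro k
    exact Pool.Agent.U839.Wg.pairs_up hT.1 hT.2 (toSieved hE) c (1 / ((k : ℝ) + 1)) hc0 hc.le (by positivity)
  filter_upwards [h1, h2] with ω g1 g2
  rw [Metric.tendsto_nhds]
  intro ε hε
  obtain ⟨k, hk⟩ := exists_nat_one_div_lt hε
  filter_upwards [g1 k, g2 k, eventually_ge_atTop 2] with D e1 e2 e3
  have hD1 : (1 : ℝ) < D := by exact_mod_cast e3
  have hL : 0 < Real.log D := Real.log_pos hD1
  have hD0 : (0 : ℝ) < D := by linarith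
  have hN : (0 : ℝ) < N {n | ω ∈ E n} c D := lt_of_lt_of_le (Real.rpow_pos_of_pos hD0 _) e1
  have e4 := Real.log_le_log (Real.rpow_pos_of_pos hD0 _) e1
  have e5 := Real.log_le_log hN e2
  rw [Real.log_rpow hD0] at e4 e5
  rw [Real.dist_eq, abs_lt]
  constructor
  · have : 2 - c - 1 / ((k : ℝ) + 1) ≤ Real.log (N {n | ω ∈ E n} c D) / Real.log D := by
      rwa [le_div_iff₀ hL]
    linarith
  · have : Real.log (N {n | ω ∈ E n} c D) / Real.log D ≤ 2 - c + 1 / ((k : ℝ) + 1) := by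
      rwa [div_le_iff₀ hL]
    linarith

theorem B3 {T : ℕ → ℕ} (hT : SmallSieve T) {Ω : Type*} [MeasurableSpace Ω] {μ : Measure Ω}
    [IsProbabilityMeasure μ] {E : ℕ → Set Ω} (hE : Model μ T E) (c ε : ℝ) (hc0 : 0 < c) (hc : c ≤ 2)
    (hε : 0 < ε) :
    ∀ᵐ ω ∂μ, ∀ᶠ D : ℕ in atTop,
      ({q : ℕ | q ≤ D ∧ q.Prime ∧ Exceeds {n | ω ∈ E n} q (w c q)}.ncard : ℝ) ≤ (D : ℝ) ^ (2 - c + ε) := by
  filter_upwards [Pool.Agent.U839.Wg.pairs_up hT.1 hT.2 (toSieved hE) c ε hc0 hc hε] with ω hω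
  filter_upwards [hω] with D hD
  refine le_trans ?_ hD
  have h1 : {q : ℕ | q ≤ D ∧ q.Prime ∧ Exceeds {n | ω ∈ E n} q (w c q)} ⊆
      Prod.fst '' {z : ℕ × ℕ | z.1 ≤ D ∧ z.1.Prime ∧ 1 ≤ z.2 ∧ z.2 < z.1 ∧
        Pool.Agent.U839.Wg.Late {n | ω ∈ E n} z.1 z.2 (Pool.Agent.U839.Wg.wag c z.1)} := by
    rintro q ⟨h2, h3, a, h4, h5, h6, h7⟩
    exact ⟨(q, a), ⟨h2, h3, h4, h5, h7⟩, rfl⟩
  have hfin := Pool.Agent.U839.Wg.NN_fin {n | ω ∈ E n} c D
  have h2 := (Set.ncard_le_ncard h1 (hfin.image _)).trans (Set.ncard_image_le hfin)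
  exact_mod_cast h2

theorem B4 {T : ℕ → ℕ} (hT : SmallSieve T) {Ω : Type*} [MeasurableSpace Ω] {μ : Measure Ω}
    [IsProbabilityMeasure μ] {E : ℕ → Set Ω} (hE : Model μ T E) (c : ℝ) (hc : 1 < c) :
    ∀ᵐ ω ∂μ, ∃ᶠ q : ℕ in atTop, q.Prime ∧ ¬ Exceeds {n | ω ∈ E n} q (w c q) := by
  obtain ⟨c', h0, h1, h2⟩ : ∃ c' : ℝ, 1 < c' ∧ c' ≤ c ∧ c' ≤ 2 :=
    ⟨min c 2, lt_min hc (by norm_num), min_le_left _ _, min_le_right _ _⟩
  obtain ⟨η, hη⟩ : ∃ η : ℝ, η = (c' - 1) / 4 := ⟨_, rfl⟩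
  have hη0 : 0 < η := by rw [hη]; linarith
  filter_upwards [B3 hT hE c' η (by linarith) h2 hη0] with ω hω
  by_contra hcon
  rw [not_frequently] at hcon
  obtain ⟨M, hM⟩ := eventually_atTop.1 hcon
  have E1 : ∀ᶠ D : ℕ in atTop, ((M : ℝ) + 2) ≤ (D : ℝ) ^ η :=
    ((tendsto_rpow_atTop hη0).comp tendsto_natCast_atTop_atTop).eventually_ge_atTop _
  obtain ⟨D, ⟨g1, g2⟩, g3, g4⟩ := ((hω.and E1).and ((Pool.Agent.U839.Wg.many_primes η hη0).and
    (eventually_ge_atTop 1))).exists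
  have hD1 : (1 : ℝ) ≤ D := by exact_mod_cast g4
  have hD0 : (0 : ℝ) < D := by linarith
  have h3 : ((Finset.Ioc (D / 2) D).filter Nat.Prime).card ≤
      {q : ℕ | q ≤ D ∧ q.Prime ∧ Exceeds {n | ω ∈ E n} q (w c' q)}.ncard + M := by
    have hfin : {q : ℕ | q ≤ D ∧ q.Prime ∧ Exceeds {n | ω ∈ E n} q (w c' q)}.Finite :=
      (Set.finite_Iic D).subset fun q hq => hq.1
    have h4 : (((Finset.Ioc (D / 2) D).filter Nat.Prime : Finset ℕ) : Set ℕ) ⊆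
        {q : ℕ | q ≤ D ∧ q.Prime ∧ Exceeds {n | ω ∈ E n} q (w c' q)} ∪ ((Finset.range M : Finset ℕ) : Set ℕ) := by
      intro q hq
      rw [Finset.mem_coe, Finset.mem_filter, Finset.mem_Ioc] at hq
      by_cases h5 : M ≤ q
      · left
        refine ⟨hq.1.2, hq.2, ?_⟩
        have h6 := hM q h5
        push Not at h6
        exact exceeds_mono (h6 hq.2) (w_mono h1 q)
      · right
        rw [Finset.mem_coe, Finset.mem_range]
        omega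
    have h5 := Set.ncard_le_ncard h4 (hfin.union (Finset.finite_toSet _))
    rw [Set.ncard_coe_finset] at h5
    refine h5.trans ((Set.ncard_union_le _ _).trans ?_)
    rw [Set.ncard_coe_finset, Finset.card_range]
  have h4 : (((Finset.Ioc (D / 2) D).filter Nat.Prime).card : ℝ) ≤
      {q : ℕ | q ≤ D ∧ q.Prime ∧ Exceeds {n | ω ∈ E n} q (w c' q)}.ncard + M := by exact_mod_cast h3
  have h5 : (D : ℝ) ^ (1 - η) ≤ (D : ℝ) ^ (2 - c' + η) + M := by linarith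
  have h6 : (D : ℝ) ^ (1 - η) = (D : ℝ) ^ η * (D : ℝ) ^ (1 - 2 * η) := by
    rw [← Real.rpow_add hD0]
    congr 1
    ring
  have h7 : (D : ℝ) ^ (2 - c' + η) ≤ (D : ℝ) ^ (1 - 2 * η) :=
    Real.rpow_le_rpow_of_exponent_le hD1 (by rw [hη]; linarith)
  have h8 : (1 : ℝ) ≤ (D : ℝ) ^ (1 - 2 * η) := Real.one_le_rpow hD1 (by rw [hη]; linarith)
  have h9 : (0 : ℝ) ≤ M := Nat.cast_nonneg _
  nlinarith

/-- (A), (B), (C). -/
theorem result.{u} :
    (∀ T : ℕ → ℕ, Sieve T → ∀ (Ω : Type u) [MeasurableSpace Ω] (μ : Measure Ω)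
      [IsProbabilityMeasure μ] (E : ℕ → Set Ω), Model μ T E →
      (∀ c : ℝ, c < 1 → ∀ᵐ ω ∂μ, ∀ᶠ q : ℕ in atTop, q.Prime → Exceeds {n | ω ∈ E n} q (w c q)) ∧
      (∀ c : ℝ, c < 2 → ∀ᵐ ω ∂μ, ∃ᶠ q : ℕ in atTop, q.Prime ∧ Exceeds {n | ω ∈ E n} q (w c q)) ∧
      (∀ c ε : ℝ, 0 < c → c < 2 → 0 < ε → ∀ᵐ ω ∂μ, ∀ᶠ D : ℕ in atTop,
        (D : ℝ) ^ (2 - c - ε) ≤ N {n | ω ∈ E n} c D)) ∧
    (∀ T : ℕ → ℕ, SmallSieve T → ∀ (Ω : Type u) [MeasurableSpace Ω] (μ : Measure Ω)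
      [IsProbabilityMeasure μ] (E : ℕ → Set Ω), Model μ T E →
      (∀ c : ℝ, 1 < c → ∀ᵐ ω ∂μ, ∃ᶠ q : ℕ in atTop, q.Prime ∧ ¬ Exceeds {n | ω ∈ E n} q (w c q)) ∧
      (∀ c : ℝ, 2 < c → ∀ᵐ ω ∂μ, ∀ᶠ q : ℕ in atTop, q.Prime → ¬ Exceeds {n | ω ∈ E n} q (w c q)) ∧
      (∀ c : ℝ, 0 < c → c < 2 → ∀ᵐ ω ∂μ,
        Tendsto (fun D : ℕ => Real.log (N {n | ω ∈ E n} c D) / Real.log D) atTop (𝓝 (2 - c))) ∧
      (∀ c ε : ℝ, 0 < c → c ≤ 2 → 0 < ε → ∀ᵐ ω ∂μ, ∀ᶠ D : ℕ in atTop,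
        ({q : ℕ | q ≤ D ∧ q.Prime ∧ Exceeds {n | ω ∈ E n} q (w c q)}.ncard : ℝ) ≤
          (D : ℝ) ^ (2 - c + ε))) ∧
    (∀ θ : ℝ, 0 < θ → ∃ δ : ℝ, 0 < δ ∧ ∀ T : ℕ → ℕ, Sieve T →
      (∀ᶠ n : ℕ in atTop, (Real.log n) ^ θ ≤ T n) →
      ∀ (Ω : Type u) [MeasurableSpace Ω] (μ : Measure Ω) [IsProbabilityMeasure μ] (E : ℕ → Set Ω),
      Model μ T E →
      (∀ᵐ ω ∂μ, ∀ᶠ q : ℕ in atTop, q.Prime → Exceeds {n | ω ∈ E n} q (w (1 + δ) q)) ∧
      (∀ᵐ ω ∂μ, ∃ᶠ q : ℕ in atTop, q.Prime ∧ Exceeds {n | ω ∈ E n} q (w (2 + δ) q))) := by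
  refine ⟨?_, ?_, ?_⟩
  · intro T hT Ω _ μ _ E hE
    exact ⟨A1 hT hE, A2 hT hE, A3 hT hE⟩
  · intro T hT Ω _ μ _ E hE
    exact ⟨B4 hT hE, B1 hT hE, B2 hT hE, B3 hT hE⟩
  · intro θ hθ
    obtain ⟨δ, hδ, hδ1, H⟩ := Pool.Agent.U839.Wg.apoor θ hθ
    refine ⟨δ, hδ, fun T hT hTl Ω _ μ _ E hE => ⟨?_, ?_⟩⟩
    · filter_upwards [Pool.Agent.U839.Wg.all_low (toSieved hE) hT.2 (1 + δ) (1 - δ) (by linarith)
        (by linarith) (by nlinarith) (fun η hη hη2 => H T hT.1 hT.2 hTl (1 + δ) η (by linarith) hη hη2)]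
        with ω hω
      filter_upwards [hω] with q hq hqp
      exact ex_of hqp (hq hqp)
    · filter_upwards [Pool.Agent.U839.Wg.inf_low (toSieved hE) hT.2 (2 + 2 * δ) (2 + δ) (1 - δ)
        (by linarith) (by linarith) (by linarith) (by nlinarith)
        (fun η hη hη2 => H T hT.1 hT.2 hTl (2 + 2 * δ) η (by linarith) hη hη2)] with ω hω
      refine hω.mono ?_
      rintro q ⟨hqp, hq⟩
      exact ⟨hqp, ex_of hqp hq⟩

end Pool.Agent.Results.MP_458f0b_nt.WagstaffInRandomModels
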